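import Pool.Agent.X302.TR.Stm

set_option autoImplicit false

namespace Pool.Agent.X10.TR

open Filter Topology Pool.Agent.X302.TR

variable {n : ℕ}

theorem dot_add (m : Fin n → ℤ) (u v : V n) : dot m (u + v) = dot m u + dot m v := by
  simp only [dot, Pi.add_apply, mul_add, Finset.sum_add_distrib]

theorem dot_smul (m : Fin n → ℤ) (c : ℝ) (v : V n) : dot m (c • v) = c * dot m v := by
  simp only [dot, Pi.smul_apply, smul_eq_mul, Finset.mul_sum]
  exact Finset.sum_congr rfl fun _ _ => by ring

theorem cont_bil (R : V n →ₗ[ℝ] V n →ₗ[ℝ] ℝ) : Continuous fun x : V n => R x x := by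
  have e : (fun x : V n => R x x) =
      fun x : V n => ∑ i, x i * R (fun j => if i = j then 1 else 0) x := by
    funext x
    have h := LinearMap.pi_apply_eq_sum_univ (R.flip x) x
    simpa [LinearMap.flip_apply] using h
  rw [e]
  refine continuous_finset_sum _ fun i _ => (continuous_apply i).mul ?_
  exact LinearMap.continuous_of_finiteDimensional _

theorem cont_tri (R : V n →ₗ[ℝ] V n →ₗ[ℝ] V n →ₗ[ℝ] ℝ) : Continuous fun x : V n => R x x x := by
  have e : (fun x : V n => R x x x) =
      fun x : V n => ∑ i, x i * R (fun j => if i = j then 1 else 0) x x := by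
    funext x
    have h := LinearMap.pi_apply_eq_sum_univ R x
    have h2 := congrArg (fun f => f x x) h
    simpa [LinearMap.sum_apply, LinearMap.smul_apply] using h2
  rw [e]
  exact continuous_finset_sum _ fun i _ => (continuous_apply i).mul (cont_bil _)

theorem cont_val (F : Cub n) : Continuous F.val := by
  unfold Cub.val
  exact (((cont_tri F.T).add (cont_bil F.Q)).add
    (LinearMap.continuous_of_finiteDimensional F.L)).add continuous_const

theorem cont_A (F : Cub n) (e : V n) : Continuous (F.A e) := by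
  unfold Cub.A
  exact (continuous_const.mul (LinearMap.continuous_of_finiteDimensional (F.T e e))).add
    continuous_const

theorem cont_B (F : Cub n) (e : V n) : Continuous (F.B e) := by
  unfold Cub.B
  exact ((continuous_const.mul (cont_bil (F.T e))).add
    (continuous_const.mul (LinearMap.continuous_of_finiteDimensional (F.Q e)))).add
    continuous_const

theorem val_expand (F : Cub n) (e u : V n) (s : ℝ) :
    F.val (u + s • e) = s ^ 3 * F.T e e e + s ^ 2 * F.A e u + s * F.B e u + F.val u := by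
  have h1 : F.T u e e = F.T e e u := by rw [F.T1 u e e, F.T2 e u e]
  have h2 : F.T e u e = F.T e e u := by rw [F.T2 e u e]
  have h3 : F.T u e u = F.T e u u := F.T1 _ _ _
  have h4 : F.T u u e = F.T e u u := by rw [F.T2 u u e, F.T1 u e u]
  have h5 : F.Q u e = F.Q e u := F.Q1 _ _
  unfold Cub.val Cub.A Cub.B
  simp only [map_add, map_smul, LinearMap.add_apply, LinearMap.smul_apply, smul_eq_mul,
    h1, h2, h3, h4, h5]
  ring

/-- the ray from `y` in direction `d` is not an unbounded thin ray (real parameter `s`) -/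
def BddR {p : ℕ} (a : Fin p → Fin n → ℤ) (b : Fin p → ℝ) (F : Cub n) (y d : V n) : Prop :=
  ∃ ε > 0, ∃ M : ℝ, ∀ x : Fin n → ℤ, Pt a b (toV x) →
    (∃ s : ℝ, 0 ≤ s ∧ ‖toV x - (y + s • d)‖ ≤ ε) → M ≤ F.val (toV x)

/-- no unbounded thin ray (real parameter `s`) -/
def NoRayR {p : ℕ} (a : Fin p → Fin n → ℤ) (b : Fin p → ℝ) (F : Cub n) : Prop :=
  ∀ y d : V n, d ≠ 0 → Pt a b y → Rc a d → BddR a b F y d

/-- TR_COND with `NoRayR` -/
def S_CONDR : Prop := S_NEAR → S_KRON → S_HULL →
  ∀ (n p : ℕ) (a : Fin p → Fin n → ℤ) (b : Fin p → ℝ) (F : Cub n), NoRayR a b F →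
  ∀ e y : V n, e ≠ 0 → Rc a e → y ∈ G e → Cm a b e y →
    0 ≤ F.T e e e ∧ (F.T e e e = 0 → 0 ≤ F.A e y) ∧
      (F.T e e e = 0 → F.A e y = 0 → 0 ≤ F.B e y)

/-- a sequence of integer points -/
theorem seq (hN : S_NEAR) (hK : S_KRON) (hHu : S_HULL) (p : ℕ) (a : Fin p → Fin n → ℤ)
    (b : Fin p → ℝ) (F : Cub n) (hno : NoRayR a b F) (e y : V n) (he : e ≠ 0) (hRc : Rc a e)
    (hy : y ∈ G e) (hCm : Cm a b e y) :
    ∃ (M : ℝ) (s : ℕ → ℝ) (δ : ℕ → V n), Tendsto s atTop atTop ∧ Tendsto δ atTop (𝓝 0) ∧
      (∀ k, δ k ∈ H e) ∧ ∀ᶠ k in atTop, M ≤ F.val ((y + δ k) + s k • e) := by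
  -- base point
  have hbase : ∃ K : ℝ, Pt a b (y + K • e) := by
    have : ∀ i, ∀ᶠ K : ℝ in atTop, dot (a i) (y + K • e) ≤ b i := by
      intro i
      rcases (hRc i).lt_or_eq with h | h
      · have ht : Tendsto (fun K : ℝ => dot (a i) y + K * dot (a i) e) atTop atBot :=
          tendsto_atBot_add_const_left _ _ (tendsto_id.atTop_mul_const_of_neg h)
        filter_upwards [ht.eventually_le_atBot (b i)] with K hK
        rw [dot_add, dot_smul]; exact hK
      · refine Eventually.of_forall fun K => ?_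
        rw [dot_add, dot_smul, h, mul_zero, add_zero]
        exact hCm i h
    exact (eventually_all.mpr this).exists
  obtain ⟨K, hKp⟩ := hbase
  obtain ⟨ε, hε, M, hM⟩ := hno (y + K • e) e he hKp hRc
  have hnear := fun k : ℕ => hN hK hHu n p a b e y hRc hy hCm (min ε (1 / ((k : ℝ) + 1)))
    (lt_min hε (by positivity)) (max K k)
  choose s hs x hxP hxn hxH using hnear
  refine ⟨M, s, fun k => toV (x k) - (y + s k • e), ?_, ?_, hxH, Eventually.of_forall fun k => ?_⟩
  · refine tendsto_atTop_mono (fun k => le_trans (le_max_right K (k : ℝ)) (hs k)) ?_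
    exact tendsto_natCast_atTop_atTop
  · rw [tendsto_zero_iff_norm_tendsto_zero]
    refine squeeze_zero (fun k => norm_nonneg _)
      (fun k => (le_trans (hxn k).le (min_le_right _ _))) ?_
    exact tendsto_one_div_add_atTop_nhds_zero_nat
  · have e1 : y + (toV (x k) - (y + s k • e)) + s k • e = toV (x k) := by abel
    rw [e1]
    refine hM (x k) (hxP k) ⟨s k - K, ?_, ?_⟩
    · have := le_trans (le_max_left K (k : ℝ)) (hs k)
      linarith
    · have e2 : y + K • e + (s k - K) • e = y + s k • e := by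
        rw [sub_smul]; abel
      rw [e2]
      exact le_trans (hxn k).le (min_le_left _ _)

theorem not_bdd_of_tendsto {f : ℕ → ℝ} {M : ℝ} (h : Tendsto f atTop atBot)
    (hM : ∀ᶠ k in atTop, M ≤ f k) : False := by
  obtain ⟨k, h1, h2⟩ := (hM.and (h.eventually_lt_atBot M)).exists
  linarith

theorem t_CONDR : S_CONDR := by
  intro hN hK hHu n p a b F hno
  -- first and second condition for all compatible y
  have C1 : ∀ e y : V n, e ≠ 0 → Rc a e → y ∈ G e → Cm a b e y → 0 ≤ F.T e e e := by
    intro e y he hRc hy hCm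
    obtain ⟨M, s, δ, hs, hδ, _, hM⟩ := seq hN hK hHu p a b F hno e y he hRc hy hCm
    by_contra hneg
    push Not at hneg
    have hyδ : Tendsto (fun k => y + δ k) atTop (𝓝 y) := by
      simpa using hδ.const_add y
    have hA := ((cont_A F e).tendsto y).comp hyδ
    have hB := ((cont_B F e).tendsto y).comp hyδ
    have hv := ((cont_val F).tendsto y).comp hyδ
    have hinv : Tendsto (fun k => (s k)⁻¹) atTop (𝓝 0) := tendsto_inv_atTop_zero.comp hs
    have hlim : Tendsto (fun k => F.T e e e + (s k)⁻¹ * F.A e (y + δ k) +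
        (s k)⁻¹ * (s k)⁻¹ * F.B e (y + δ k)) atTop (𝓝 (F.T e e e)) := by
      have := ((tendsto_const_nhds (x := F.T e e e)).add (hinv.mul hA)).add
        ((hinv.mul hinv).mul hB)
      simpa using this
    have h3 : Tendsto (fun k => (s k) ^ 3) atTop atTop :=
      (tendsto_pow_atTop (by norm_num)).comp hs
    have h4 := h3.atTop_mul_neg hneg hlim
    have h5 := h4.atBot_add hv
    refine not_bdd_of_tendsto (M := M) h5 ?_
    filter_upwards [hM, hs.eventually_gt_atTop 0] with k hk hk0
    refine le_trans hk (le_of_eq ?_)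
    rw [val_expand]
    simp only [Function.comp]
    field_simp
  have C2 : ∀ e y : V n, e ≠ 0 → Rc a e → y ∈ G e → Cm a b e y → F.T e e e = 0 →
      0 ≤ F.A e y := by
    intro e y he hRc hy hCm hT
    obtain ⟨M, s, δ, hs, hδ, _, hM⟩ := seq hN hK hHu p a b F hno e y he hRc hy hCm
    by_contra hneg
    push Not at hneg
    have hyδ : Tendsto (fun k => y + δ k) atTop (𝓝 y) := by
      simpa using hδ.const_add y
    have hA := ((cont_A F e).tendsto y).comp hyδ
    have hB := ((cont_B F e).tendsto y).comp hyδ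
    have hv := ((cont_val F).tendsto y).comp hyδ
    have hinv : Tendsto (fun k => (s k)⁻¹) atTop (𝓝 0) := tendsto_inv_atTop_zero.comp hs
    have hlim : Tendsto (fun k => F.A e (y + δ k) +
        (s k)⁻¹ * F.B e (y + δ k)) atTop (𝓝 (F.A e y)) := by
      have := hA.add (hinv.mul hB)
      simpa using this
    have h3 : Tendsto (fun k => (s k) ^ 2) atTop atTop :=
      (tendsto_pow_atTop (by norm_num)).comp hs
    have h4 := h3.atTop_mul_neg hneg hlim
    have h5 := h4.atBot_add hv
    refine not_bdd_of_tendsto (M := M) h5 ?_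
    filter_upwards [hM, hs.eventually_gt_atTop 0] with k hk hk0
    refine le_trans hk (le_of_eq ?_)
    rw [val_expand, hT]
    simp only [Function.comp]
    field_simp
    ring
  intro e y he hRc hy hCm
  refine ⟨C1 e y he hRc hy hCm, C2 e y he hRc hy hCm, fun hT hA0 => ?_⟩
  -- T e e vanishes on the hull
  have hTv : ∀ v ∈ H e, F.T e e v = 0 := by
    intro v hv
    by_contra hne
    -- choose the sign
    obtain ⟨c, hc⟩ : ∃ c : ℝ, c * F.T e e v < 0 := by
      refine ⟨- F.T e e v, ?_⟩
      have : 0 < F.T e e v * F.T e e v := mul_self_pos.mpr hne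
      linarith
    have hG : y + c • v ∈ G e := by
      intro m hm
      obtain ⟨t, ht⟩ := hy m hm
      refine ⟨t, ?_⟩
      rw [dot_add, dot_smul, hv m hm, mul_zero, add_zero, ht]
    have hCm' : Cm a b e (y + c • v) := by
      intro i hi
      rw [dot_add, dot_smul, hv (a i) hi, mul_zero, add_zero]
      exact hCm i hi
    have := C2 e (y + c • v) he hRc hG hCm' hT
    have h2 : F.A e (y + c • v) = F.A e y + 3 * (c * F.T e e v) := by
      unfold Cub.A
      simp only [map_add, map_smul, smul_eq_mul]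
      ring
    rw [h2, hA0] at this
    linarith
  obtain ⟨M, s, δ, hs, hδ, hδH, hM⟩ := seq hN hK hHu p a b F hno e y he hRc hy hCm
  by_contra hneg
  push Not at hneg
  have hyδ : Tendsto (fun k => y + δ k) atTop (𝓝 y) := by
    simpa using hδ.const_add y
  have hB := ((cont_B F e).tendsto y).comp hyδ
  have hv := ((cont_val F).tendsto y).comp hyδ
  have h4 := hs.atTop_mul_neg hneg hB
  have h5 := h4.atBot_add hv
  refine not_bdd_of_tendsto (M := M) h5 ?_
  filter_upwards [hM] with k hk
  refine le_trans hk (le_of_eq ?_)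
  have hA1 : F.A e (y + δ k) = 0 := by
    have h2 : F.A e (y + δ k) = F.A e y + 3 * F.T e e (δ k) := by
      unfold Cub.A
      simp only [map_add]
      ring
    rw [h2, hA0, hTv _ (hδH k)]
    ring
  rw [val_expand, hT, hA1]
  simp only [Function.comp]
  ring

end Pool.Agent.X10.TR
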