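import Pool.Agent.X302.TR.Main1
import Pool.Agent.X10.TR.Cond

set_option autoImplicit false

namespace Pool.Agent.X10.TR

open Filter Topology Pool.Agent.X302.TR

variable {n p : ℕ}

theorem hull_const {U : Ultrafilter ℕ} (hHULL : S_HULL) (g : V n) (f : V n →ₗ[ℝ] ℝ)
    (hf : ∀ v ∈ H g, f v = 0) (y : ℕ → V n) (y0 : V n) (hy : Tendsto y U (𝓝 y0))
    (hG : ∀ᶠ k in (U : Filter ℕ), y k ∈ G g) : ∀ᶠ k in (U : Filter ℕ), f (y k) = f y0 := by
  obtain ⟨ε, hε, hH⟩ := hHULL n g
  have h1 : ∀ᶠ k in (U : Filter ℕ), dist (y k) y0 < ε / 2 :=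
    hy.eventually (Metric.ball_mem_nhds y0 (half_pos hε))
  obtain ⟨k0, hk0, hk0G⟩ := (h1.and hG).exists
  have h2 : ∀ᶠ k in (U : Filter ℕ), f (y k) = f (y k0) := by
    filter_upwards [h1, hG] with k hk hkG
    have hm : y k - y k0 ∈ G g := by
      intro q hq
      obtain ⟨t, ht⟩ := hkG q hq
      obtain ⟨t', ht'⟩ := hk0G q hq
      exact ⟨t - t', by rw [dot_sub, ht, ht']; push_cast; ring⟩
    have hn : ‖y k - y k0‖ < ε := by
      rw [← dist_eq_norm]
      calc dist (y k) (y k0) ≤ dist (y k) y0 + dist y0 (y k0) := dist_triangle _ _ _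
        _ < ε := by rw [dist_comm y0]; linarith
    have := hf _ (hH _ hm hn)
    rw [map_sub] at this
    linarith
  have h3 : Tendsto (fun k => f (y k)) U (𝓝 (f y0)) :=
    ((LinearMap.continuous_of_finiteDimensional f).tendsto y0).comp hy
  have h4 : Tendsto (fun k => f (y k)) U (𝓝 (f (y k0))) :=
    tendsto_const_nhds.congr' (h2.mono fun k hk => hk.symm)
  have h5 := tendsto_nhds_unique h3 h4
  filter_upwards [h2] with k hk
  rw [hk, h5]

theorem core (hKRON : S_KRON) (hHULL : S_HULL) (hNEAR : S_NEAR) (hCOND : S_CONDR) (hELL : S_ELL)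
    (hSTEP : S_STEP) (hSTEP0 : S_STEP0) (hPOS : S_POS) (hLAST : S_LAST) (hFLAG : S_FLAG)
    (hSGN : S_SGN) (hSIZE : S_SIZE) (hCHAIN : S_CHAIN)
    (a : Fin p → Fin n → ℤ) (b : Fin p → ℝ) (F : Cub n) (hno : NoRayR a b F) :
    ∃ M : ℝ, ∀ x : Fin n → ℤ, Pt a b (toV x) → M ≤ F.val (toV x) := by
  classical
  by_contra hcon
  push Not at hcon
  choose x hxP hxF using fun k : ℕ => hcon (-(k : ℝ))
  let U : Ultrafilter ℕ := Filter.hyperfilter ℕ
  have hU : (U : Filter ℕ) ≤ atTop := Nat.hyperfilter_le_atTop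
  have hF : Tendsto (fun k => F.val (toV (x k))) U atBot := by
    refine Tendsto.mono_left ?_ hU
    refine tendsto_atBot_mono (fun k => (hxF k).le) ?_
    exact tendsto_neg_atTop_atBot.comp tendsto_natCast_atTop_atTop
  obtain ⟨m, d, lam, y, y0, hx, hlam, hrat, hd0, hy⟩ := hFLAG n U (fun k => toV (x k))
  have hCd := hCOND hNEAR hKRON hHULL n p a b F hno
  rcases Nat.eq_zero_or_pos m with rfl | hm
  · have h1 : Tendsto (fun k => F.val (y k)) U (𝓝 (F.val y0)) :=
      ((cont_val F).tendsto y0).comp hy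
    have h2 : Tendsto (fun k => F.val (toV (x k))) U (𝓝 (F.val y0)) :=
      h1.congr' (hx.mono fun k hk => by
        show F.val (y k) = F.val (toV (x k))
        rw [hk]; simp)
    exact not_tendsto_nhds_of_tendsto_atBot hF _ h2
  obtain ⟨K, hK, hS⟩ := hSIZE n U lam d y y0 m hlam hrat hy
  have hx0 : ∀ᶠ k in (U : Filter ℕ), toV (x k) = W m d lam y 0 k := by
    filter_upwards [hx] with k hk
    rw [hk, W, Finset.range_eq_Ico]
  have hpoly : ∀ i : Fin p, ∀ j < m, (∀ j' < j, dot (a i) (d j') = 0) → dot (a i) (d j) ≤ 0 := by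
    intro i j hj hz
    have h1 := (hS j hj).2.2
    have h2 : Tendsto (fun k => dot (a i) ((lam j k)⁻¹ • W m d lam y j k)) U
        (𝓝 (dot (a i) (d j))) := ((continuous_dot (a i)).tendsto _).comp h1
    have h3 : Tendsto (fun k => (lam j k)⁻¹ * b i) U (𝓝 0) := by
      have := (tendsto_inv_atTop_zero.comp (hlam j hj)).mul_const (b i)
      simpa using this
    refine le_of_tendsto_of_tendsto h2 h3 ?_
    filter_upwards [hx0, (hlam j hj).eventually_gt_atTop 0] with k hk hk0
    rw [dot_smul]
    refine mul_le_mul_of_nonneg_left ?_ (inv_nonneg.mpr hk0.le)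
    have h4 : dot (a i) (toV (x k)) = dot (a i) (W m d lam y j k) := by
      rw [hk, W_split (Nat.zero_le j) hj.le, Pool.Agent.X302.TR.dot_add, dot_sum,
        Finset.sum_eq_zero, zero_add]
      intro i' hi'
      rw [Finset.mem_Ico] at hi'
      rw [Pool.Agent.X302.TR.dot_smul, hz i' hi'.2, mul_zero]
    rw [← h4]
    exact hxP k i
  obtain ⟨e, R, he0, hR, hst, hne, hai, hgen⟩ := hCHAIN n p a m d hm (hd0 hm) hpoly
  have hT3 : ∀ u, Rc a u → 0 ≤ F.T u u u := by
    intro u hu
    by_cases h0 : u = 0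
    · rw [h0]; simp
    · exact (hCd u (toV (x 0)) h0 hu (fun q _ => dot_toV q (x 0)) (fun i _ => hxP 0 i)).1
  have hkey : ∀ j < m, ∀ᶠ k in (U : Filter ℕ), ∀ q : Fin n → ℤ, dot q (e j) = 0 →
      dot q (W m d lam y (j + 1) k) = dot q (toV (x k)) := by
    intro j hj
    filter_upwards [hx0] with k hk
    exact key he0 hst hgen hk j hj
  have hGm : ∀ j < m, ∀ᶠ k in (U : Filter ℕ), W m d lam y (j + 1) k ∈ G (e j) := by
    intro j hj
    filter_upwards [hkey j hj] with k hk q hq
    rw [hk q hq]
    exact dot_toV q (x k)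
  have hC : ∀ j < m, ∀ᶠ k in (U : Filter ℕ), 0 ≤ F.T (e j) (e j) (e j) ∧
      (F.T (e j) (e j) (e j) = 0 → 0 ≤ F.A (e j) (W m d lam y (j + 1) k)) ∧
      (F.T (e j) (e j) (e j) = 0 → F.A (e j) (W m d lam y (j + 1) k) = 0 →
        0 ≤ F.B (e j) (W m d lam y (j + 1) k)) := by
    intro j hj
    filter_upwards [hkey j hj, hGm j hj] with k hk hkG
    refine hCd (e j) _ (hne j hj).1 (hne j hj).2 hkG ?_
    intro i hi
    rw [hk (a i) hi]
    exact hxP k i
  -- small tails
  have hsm : ∀ j < m, Tendsto (fun k => ‖W m d lam y (j + 1) k‖ / lam j k) U (𝓝 0) := by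
    intro j hj
    rcases Nat.lt_or_ge (j + 1) m with h | h
    · have h1 : Tendsto (fun k => K * (lam (j + 1) k / lam j k)) U (𝓝 0) := by
        have := (hrat j h).const_mul K
        simpa using this
      refine squeeze_zero' ?_ ?_ h1
      · filter_upwards [(hlam j hj).eventually_gt_atTop 0] with k hk
        positivity
      · filter_upwards [(hlam j hj).eventually_gt_atTop 0, (hS (j + 1) h).1] with k hk hk2
        rw [← mul_div_assoc]
        exact div_le_div_of_nonneg_right hk2 hk.le
    · have hjm : j + 1 = m := by omega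
      have h1 : Tendsto (fun k => ‖y k‖) U (𝓝 ‖y0‖) := hy.norm
      have h2 := h1.mul (tendsto_inv_atTop_zero.comp (hlam j hj))
      rw [mul_zero] at h2
      refine h2.congr fun k => ?_
      simp only [Function.comp]
      rw [hjm, W_last, div_eq_mul_inv]
  -- positive leading coefficient is impossible if F tends to - infinity
  have hpos : ∀ j < m, Tendsto (fun k => F.val (lam j k • e j + W m d lam y (j + 1) k)) U atBot →
      F.T (e j) (e j) (e j) = 0 := by
    intro j hj hb
    by_contra hne0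
    have h1 : 0 < F.T (e j) (e j) (e j) := lt_of_le_of_ne (hT3 _ (hne j hj).2) (Ne.symm hne0)
    have h2 := hPOS n U F (e j) (lam j) (fun k => W m d lam y (j + 1) k) h1 (hlam j hj) (hsm j hj)
    obtain ⟨k, h3, h4⟩ := (h2.and (hb.eventually_lt_atBot 0)).exists
    exact absurd h3 (not_le.mpr h4)
  -- the hull of the last direction
  have hlast : ∀ j < m, F.T (e j) (e j) (e j) = 0 →
      (∀ i, j + 1 ≤ i → i < m → F.T (e j) (e j) (d i) = 0) →
      ∀ᶠ k in (U : Filter ℕ), F.T (e j) (e j) (y k) = F.T (e j) (e j) y0 := by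
    intro j hj hT hz
    obtain ⟨t, ht⟩ : ∃ t, m = j + t + 1 := ⟨m - (j + 1), by omega⟩
    have h1 : ∀ t, j + t < m → F.T (e j) (e j) (e (j + t)) = 0 := by
      intro t
      induction t with
      | zero => intro _; exact hT
      | succ t ih =>
        intro ht
        rw [← add_assoc, hst (j + t) (by omega), map_add, map_smul, ih (by omega),
          hz (j + t + 1) (by omega) (by omega)]
        simp
    have h2 := (hELL n p a F hT3 (e j) (hne j hj).2 hT).2.1 (e (j + t)) (hne _ (by omega)).2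
      (h1 t (by omega))
    refine hull_const hHULL (e (j + t)) (F.T (e j) (e j)) h2 y y0 hy ?_
    filter_upwards [hGm (j + t) (by omega)] with k hk
    rw [← ht, W_last] at hk
    exact hk
  -- the steps
  have hstep : ∀ j, j + 1 < m → F.T (e j) (e j) (e j) = 0 →
      ∀ᶠ k in (U : Filter ℕ), F.val ((R j * lam (j + 1) k) • e j + W m d lam y (j + 1) k) ≤
        F.val (lam j k • e j + W m d lam y (j + 1) k) := by
    intro j hj hT
    have hcw := fun i0 (hi0 : i0 ≤ m) => cone_w (a := a) (U := (U : Filter ℕ)) hSGN hlam hrat hst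
      (fun j hj => (hne j hj).2) (j := j) (i0 := i0) (by omega) hi0
    have hEl := hELL n p a F hT3 (e j) (hne j (by omega)).2 hT
    by_cases hall : ∀ i, j + 1 ≤ i → i < m → F.T (e j) (e j) (d i) = 0
    · have h1 := hlast j (by omega) hT hall
      have hsum0 : ∀ k, F.T (e j) (e j) (∑ i ∈ Finset.Ico (j + 1) m, lam i k • d i) = 0 := by
        intro k
        rw [map_sum]
        refine Finset.sum_eq_zero fun i hi => ?_
        rw [Finset.mem_Ico] at hi
        rw [map_smul, hall i hi.1 hi.2, smul_zero]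
      have hA : ∀ᶠ k in (U : Filter ℕ), F.A (e j) (W m d lam y (j + 1) k) = F.A (e j) y0 := by
        filter_upwards [h1] with k hk
        unfold Cub.A W
        rw [map_add, hsum0, zero_add, hk]
      obtain ⟨k1, hk1, hk2⟩ := (hA.and (hC j (by omega))).exists
      have hA0 : 0 ≤ F.A (e j) y0 := by
        rw [← hk1]; exact hk2.2.1 hT
      rcases hA0.lt_or_eq with hpo | hze
      · refine hSTEP n U F (e j) (R j) (F.A (e j) y0) (max K (‖y0‖ + 1)) (lam j) (lam (j + 1))
          (fun _ => 1) (fun k => W m d lam y (j + 1) k)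
          (fun k => ∑ i ∈ Finset.Ico (j + 1) m, lam i k • d i) y (hR j) hpo
          (lt_of_lt_of_le hK (le_max_left _ _)) hT ?_ (hrat j hj) (hlam j (by omega))
        filter_upwards [(hS (j + 1) hj).2.1 m le_rfl, hA, hcw m le_rfl,
          (hlam (j + 1) hj).eventually_ge_atTop 1,
          hy.norm.eventually_lt_const (lt_add_one ‖y0‖)] with k g1 g2 g3 g4 g5
        refine ⟨rfl, le_rfl, g4, ?_, ?_, ?_, hEl.2.2 _ g3 (hsum0 k)⟩
        · refine le_trans g1 ?_
          have : K ≤ max K (‖y0‖ + 1) := le_max_left _ _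
          have h0 : 0 ≤ lam (j + 1) k := by linarith
          exact mul_le_mul_of_nonneg_right this h0
        · rw [mul_one]
          exact le_trans g5.le (le_max_right _ _)
        · rw [mul_one, g2]
      · have hratio := (hrat j hj).eventually_lt_const
          (show (0 : ℝ) < 1 / R j from one_div_pos.mpr (hR j))
        filter_upwards [hA, hC j (by omega), hratio,
          (hlam j (by omega)).eventually_gt_atTop 0] with k g1 g2 g3 g4
        have hA1 : F.A (e j) (W m d lam y (j + 1) k) = 0 := by rw [g1, ← hze]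
        refine hSTEP0 n F (e j) _ _ _ hT hA1 (g2.2.2 hT hA1) ?_
        rw [div_lt_div_iff₀ g4 (hR j)] at g3
        linarith
    · push Not at hall
      let i0 := Nat.find hall
      have hi0 : j + 1 ≤ i0 ∧ i0 < m ∧ F.T (e j) (e j) (d i0) ≠ 0 := Nat.find_spec hall
      have hmin : ∀ i, j + 1 ≤ i → i < i0 → F.T (e j) (e j) (d i) = 0 := by
        intro i h1 h2
        by_contra h3
        exact Nat.find_min hall h2 ⟨h1, by omega, h3⟩
      have hsum0 : ∀ k, F.T (e j) (e j) (∑ i ∈ Finset.Ico (j + 1) i0, lam i k • d i) = 0 := by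
        intro k
        rw [map_sum]
        refine Finset.sum_eq_zero fun i hi => ?_
        rw [Finset.mem_Ico] at hi
        rw [map_smul, hmin i hi.1 hi.2, smul_zero]
      have hlim : Tendsto (fun k => (lam i0 k)⁻¹ * F.A (e j) (W m d lam y (j + 1) k)) U
          (𝓝 (3 * F.T (e j) (e j) (d i0))) := by
        have h1 := (hS i0 hi0.2.1).2.2
        have h2 : Tendsto (fun k => F.T (e j) (e j) ((lam i0 k)⁻¹ • W m d lam y i0 k)) U
            (𝓝 (F.T (e j) (e j) (d i0))) :=
          ((LinearMap.continuous_of_finiteDimensional (F.T (e j) (e j))).tendsto _).comp h1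
        have h3 := (h2.const_mul 3).add
          ((tendsto_inv_atTop_zero.comp (hlam i0 hi0.2.1)).mul_const (F.Q (e j) (e j)))
        rw [zero_mul, add_zero] at h3
        refine h3.congr fun k => ?_
        unfold Cub.A
        rw [W_split hi0.1 hi0.2.1.le, map_add, hsum0, zero_add, map_smul, smul_eq_mul]
        simp only [Function.comp]
        ring
      have hnn : 0 ≤ 3 * F.T (e j) (e j) (d i0) := by
        refine ge_of_tendsto hlim ?_
        filter_upwards [hC j (by omega), (hlam i0 hi0.2.1).eventually_gt_atTop 0] with k g1 g2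
        exact mul_nonneg (inv_nonneg.mpr g2.le) (g1.2.1 hT)
      have hc : 0 < F.T (e j) (e j) (d i0) :=
        lt_of_le_of_ne (by linarith) (Ne.symm hi0.2.2)
      have hev := hlim.eventually_const_lt
        (show F.T (e j) (e j) (d i0) < 3 * F.T (e j) (e j) (d i0) by linarith)
      have hle : ∀ᶠ k in (U : Filter ℕ), lam i0 k ≤ lam (j + 1) k := by
        obtain ⟨t, ht⟩ : ∃ t, i0 = j + 1 + t := ⟨i0 - (j + 1), by omega⟩
        rw [ht]
        exact lam_le hlam hrat (j + 1) t (by omega)
      refine hSTEP n U F (e j) (R j) (F.T (e j) (e j) (d i0)) K (lam j) (lam (j + 1))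
        (lam i0) (fun k => W m d lam y (j + 1) k)
        (fun k => ∑ i ∈ Finset.Ico (j + 1) i0, lam i k • d i) (fun k => W m d lam y i0 k) (hR j) hc
        hK hT ?_ (hrat j hj) (hlam j (by omega))
      filter_upwards [(hS (j + 1) hj).2.1 i0 hi0.2.1.le, (hS i0 hi0.2.1).1, hcw i0 hi0.2.1.le,
          (hlam i0 hi0.2.1).eventually_ge_atTop 1, hle, hev] with k g1 g2 g3 g4 g5 g6
      refine ⟨W_split hi0.1 hi0.2.1.le k, g4, g5, g1, g2, ?_, hEl.2.2 _ g3 (hsum0 k)⟩
      have h0 : 0 < lam i0 k := by linarith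
      rw [inv_mul_eq_div, lt_div_iff₀ h0] at g6
      exact g6.le
  -- propagation
  have hmain : ∀ j < m, Tendsto (fun k => F.val (lam j k • e j + W m d lam y (j + 1) k)) U
      atBot := by
    intro j
    induction j with
    | zero =>
      intro hj
      refine hF.congr' ?_
      filter_upwards [hx0] with k hk
      rw [hk, W_step hj, he0]
    | succ j ih =>
      intro hj
      have h1 := ih (by omega)
      have hT := hpos j (by omega) h1
      refine tendsto_atBot_mono' _ ?_ h1
      filter_upwards [hstep j hj hT] with k hk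
      rw [X_succ hst hj]
      exact hk
  obtain ⟨j, hj⟩ : ∃ j, m = j + 1 := ⟨m - 1, by omega⟩
  have hb := hmain j (by omega)
  have hT := hpos j (by omega) hb
  have hb' : Tendsto (fun k => F.val (lam j k • e j + y k)) U atBot := by
    refine hb.congr fun k => ?_
    rw [← hj, W_last]
  have hCj := hC j (by omega)
  have h1 := hlast j (by omega) hT (fun i h1 h2 => by omega)
  obtain ⟨M, hM⟩ := hLAST n U F (e j) y0 (lam j) y hT (hlam j (by omega)) hy
    (by
      filter_upwards [h1] with k hk
      unfold Cub.A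
      rw [hk])
    (by
      filter_upwards [hCj] with k hk
      rw [← hj, W_last] at hk
      exact hk.2.1 hT)
    (by
      filter_upwards [hCj] with k hk
      rw [← hj, W_last] at hk
      exact hk.2.2 hT)
  obtain ⟨k, h3, h4⟩ := (hM.and (hb'.eventually_lt_atBot M)).exists
  exact absurd h3 (not_le.mpr h4)

end Pool.Agent.X10.TR
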