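import Pool.Agent.X10.TR.Core
import Pool.Agent.X154.TR.POS
import Pool.Agent.X121.TR.Size
import Pool.Agent.X61.TR.Chain
import Pool.Agent.X219.TR.ELL
import Pool.Agent.X191.TR.FLAG
import Pool.Agent.X148.TRH.Hull
import Pool.Agent.X97.TR.KRON
import Pool.Agent.X168.TR.Near
import Pool.Agent.X295.TR.POLY
import Pool.Agent.X123.TR.SCALE
import Pool.Agent.X181.TR.SGN
import Pool.Agent.X9.TR.Step

set_option autoImplicit false

namespace Pool.Agent.X10.TR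

open Filter Topology Pool.Agent.X302.TR

theorem core' {n p : ℕ} (a : Fin p → Fin n → ℤ) (b : Fin p → ℝ) (F : Cub n)
    (hno : NoRayR a b F) : ∃ M : ℝ, ∀ x : Fin n → ℤ, Pt a b (toV x) → M ≤ F.val (toV x) :=
  core Pool.Agent.X97.TR.t_KRON Pool.Agent.X148.TRH.t_HULL Pool.Agent.X168.TR.t_NEAR t_CONDR
    Pool.Agent.X219.TR.t_ELL Pool.Agent.X9.TR.t_STEP Pool.Agent.X9.TR.t_STEP0
    Pool.Agent.X154.TR.t_POS Pool.Agent.X154.TR.t_LAST Pool.Agent.X191.TR.t_FLAG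
    Pool.Agent.X181.TR.t_SGN Pool.Agent.X121.TR.t_SIZE Pool.Agent.X61.TR.t_CHAIN a b F hno

/-- the points of the rational polyhedron `A x ≤ b` -/
def InP {n m : ℕ} (A : Matrix (Fin m) (Fin n) ℚ) (b : Fin m → ℚ) (x : Fin n → ℝ) : Prop :=
  ∀ i, ∑ j, (A i j : ℝ) * x j ≤ (b i : ℝ)

/-- `R(y,d)` is an unbounded thin ray of the polyhedron for `f` (Euclidean neighbourhoods) -/
def UnboundedThinRay {n m : ℕ} (A : Matrix (Fin m) (Fin n) ℚ) (b : Fin m → ℚ)
    (f : MvPolynomial (Fin n) ℝ) (y d : Fin n → ℝ) : Prop :=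
  d ≠ 0 ∧ InP A b y ∧ (∀ i, ∑ j, (A i j : ℝ) * d j ≤ 0) ∧
  ∀ ε : ℝ, 0 < ε → ∀ M : ℝ, ∃ x : Fin n → ℤ, InP A b (fun j => (x j : ℝ)) ∧
    (∃ s : ℝ, 0 ≤ s ∧ Real.sqrt (∑ j, ((x j : ℝ) - (y j + s * d j)) ^ 2) ≤ ε) ∧
    MvPolynomial.eval (fun j => (x j : ℝ)) f < M

theorem final (n m : ℕ) (A : Matrix (Fin m) (Fin n) ℚ) (b : Fin m → ℚ)
    (f : MvPolynomial (Fin n) ℝ) (hf : f.totalDegree ≤ 3) :
    (∀ M : ℝ, ∃ x : Fin n → ℤ, InP A b (fun j => (x j : ℝ)) ∧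
      MvPolynomial.eval (fun j => (x j : ℝ)) f < M) ↔
    ∃ y d : Fin n → ℝ, UnboundedThinRay A b f y d := by
  constructor
  · intro h
    by_contra hcon
    push Not at hcon
    obtain ⟨F, hF⟩ := Pool.Agent.X295.TR.t_POLY n f hf
    obtain ⟨a, b', h1, h2⟩ := Pool.Agent.X123.TR.t_SCALE n m A b
    have hno : NoRayR a b' F := by
      intro y d hd hy hRc
      by_contra hB
      apply hcon y d
      refine ⟨hd, (h1 y).1 hy, (h2 d).1 hRc, ?_⟩
      intro ε hε M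
      by_contra hM
      push Not at hM
      apply hB
      refine ⟨ε / (n + 1), by positivity, M, ?_⟩
      rintro x hx ⟨s, hs, hxs⟩
      rw [hF]
      refine hM x ((h1 _).1 hx) ⟨s, hs, ?_⟩
      rw [Real.sqrt_le_left hε.le]
      have hle : ∀ j, ((x j : ℝ) - (y j + s * d j)) ^ 2 ≤ (ε / (n + 1)) ^ 2 := by
        intro j
        have h3 : |(x j : ℝ) - (y j + s * d j)| ≤ ε / (n + 1) := by
          have h4 := norm_le_pi_norm (toV x - (y + s • d)) j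
          rw [Real.norm_eq_abs] at h4
          exact le_trans h4 hxs
        rw [← sq_abs]
        exact pow_le_pow_left₀ (abs_nonneg _) h3 2
      calc ∑ j, ((x j : ℝ) - (y j + s * d j)) ^ 2 ≤ ∑ _j : Fin n, (ε / (n + 1)) ^ 2 :=
            Finset.sum_le_sum fun j _ => hle j
        _ = n * (ε / (n + 1)) ^ 2 := by simp
        _ ≤ ε ^ 2 := by
            have hn : (0 : ℝ) ≤ n := Nat.cast_nonneg n
            have h5 : (n : ℝ) * (ε / (n + 1)) ^ 2 = ε ^ 2 * (n / (n + 1) ^ 2) := by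
              field_simp
            rw [h5]
            have h6 : (n : ℝ) / (n + 1) ^ 2 ≤ 1 := by
              rw [div_le_one (by positivity)]
              nlinarith
            calc ε ^ 2 * ((n : ℝ) / (n + 1) ^ 2) ≤ ε ^ 2 * 1 :=
                  mul_le_mul_of_nonneg_left h6 (sq_nonneg _)
              _ = ε ^ 2 := mul_one _
    obtain ⟨M, hM⟩ := core' a b' F hno
    obtain ⟨x, hx, hlt⟩ := h M
    have h3 := hM x ((h1 _).2 hx)
    rw [hF] at h3
    exact absurd h3 (not_le.mpr hlt)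
  · rintro ⟨y, d, _, _, _, h⟩ M
    obtain ⟨x, hx, _, hlt⟩ := h 1 one_pos M
    exact ⟨x, hx, hlt⟩

end Pool.Agent.X10.TR
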